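import Pool.Agent.TH235.PQ.Final

/-!
Polynomial bond dimension for the PEPS approximation of gapped ground states on the torus.

Part (A): the conclusion of the open problem (for every `c` a polynomial bound for the bond dimension
of a PEPS within `L^(-c)` of the ground state, for every `L`) holds for every gapped family which has
at most `L^(C (m+1))` eigenvalues up to `E_0 + m`, for all `m` and all large `L`.

Part (B): more generally it holds if for all large `L` there is an inverse temperature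
`β ≤ C log L` at which `Tr exp (-β (H - E_0)) ≤ L^C`.

Part (C): for every gapped family, with no spectral hypothesis, the conclusion of the open problem is
equivalent to: the same for one exponent `c`; a PEPS of polynomial bond dimension with overlap at
least `L^(-C)`; the same for locally purified mixed states; locally purified mixed states of
polynomial bond dimension whose energy is below `E_0 + Δ` by `Δ L^(-C)`; overlap at least `L^(-C)`
with the ground states of a gapped family which satisfies the conclusion of the open problem.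
-/

set_option autoImplicit false

open scoped BigOperators Matrix
open Finset Pool.Agent.TH235.PP Pool.Agent.Results.MP_953b23_mp.OverlapBoosting
  Pool.Agent.Results.MP_953b23_mp.ThermalCriterion

namespace Pool.Agent.Results.MP_e4acd5_mp.PolynomialBond

/-- The conclusion of the open problem for the exponent `c`: there is a polynomial `a L^k` such that
for every `L` some PEPS of bond dimension at most `a L^k` is within `L^(-c)` of `Ψ L`. -/
def PolyPEPS {d : ℕ} (Ψ : ∀ L : ℕ, (Site L → Fin d) → ℂ) (c : ℝ) : Prop :=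
  ∃ a k : ℕ, ∀ (L : ℕ) [NeZero L], ∃ (D : ℕ) (ψ : (Site L → Fin d) → ℂ),
    D ≤ a * L ^ k ∧ IsPEPS D ψ ∧ Real.sqrt (normSq (ψ - Ψ L)) ≤ (L : ℝ) ^ (-c)

/-- For all large `L` and all natural numbers `m` the Hamiltonian has at most `L^(C (m+1))`
eigenvalues (with multiplicity) up to `E₀ + m`. -/
def PolyStates {d R : ℕ} (h : BoxOp d R) (Ψ : ∀ L : ℕ, (Site L → Fin d) → ℂ) : Prop :=
  ∃ C L₀ : ℕ, ∀ (L : ℕ) [NeZero L], L₀ ≤ L → ∀ (hH : (ham h L).IsHermitian) (m : ℕ),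
    numStates hH (energy (ham h L) (Ψ L) + m) ≤ L ^ (C * (m + 1))

/-- For all large `L` there is `0 ≤ β ≤ C log L` with `Tr exp (-β (H_L - E₀)) ≤ L^C`. -/
def PolyPartition {d R : ℕ} (h : BoxOp d R) (Ψ : ∀ L : ℕ, (Site L → Fin d) → ℂ) : Prop :=
  ∃ (C : ℝ) (L₀ : ℕ), ∀ (L : ℕ) [NeZero L], L₀ ≤ L → ∀ hH : (ham h L).IsHermitian,
    ∃ β : ℝ, 0 ≤ β ∧ β ≤ C * Real.log L ∧
      partition hH (energy (ham h L) (Ψ L)) β ≤ (L : ℝ) ^ C

/-- For all large `L` some unit PEPS of bond dimension at most `L^C` has overlap at least `L^(-C)`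
with `Ψ L`. -/
def PolyOverlap {d : ℕ} (Ψ : ∀ L : ℕ, (Site L → Fin d) → ℂ) : Prop :=
  ∃ (C : ℝ) (L₀ : ℕ), ∀ (L : ℕ) [NeZero L], L₀ ≤ L → ∃ (D : ℕ) (φ : (Site L → Fin d) → ℂ),
    (D : ℝ) ≤ (L : ℝ) ^ C ∧ IsPEPS D φ ∧ normSq φ = 1 ∧ (L : ℝ) ^ (-C) ≤ ‖ip (Ψ L) φ‖

/-- For all large `L` some locally purified mixed state of bond dimension at most `L^C` has fidelity
at least `L^(-C)` with `Ψ L`. -/
def PolyMixedOverlap {d : ℕ} (Ψ : ∀ L : ℕ, (Site L → Fin d) → ℂ) : Prop :=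
  ∃ (C : ℝ) (L₀ : ℕ), ∀ (L : ℕ) [NeZero L], L₀ ≤ L →
    ∃ (a D : ℕ) (X : (Site L → Fin a) → (Site L → Fin d) → ℂ),
      (D : ℝ) ≤ (L : ℝ) ^ C ∧ IsPurified D X ∧ 0 < ∑ t, normSq (X t) ∧
        (L : ℝ) ^ (-C) * ∑ t, normSq (X t) ≤ ∑ t, ‖ip (Ψ L) (X t)‖ ^ 2

/-- For all large `L` some locally purified mixed state of bond dimension at most `L^C` has energy
at most `E₀ + Δ (1 - L^(-C))`. -/
def PolyLowEnergy {d R : ℕ} (h : BoxOp d R) (Δ : ℝ) (Ψ : ∀ L : ℕ, (Site L → Fin d) → ℂ) : Prop :=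
  ∃ (C : ℝ) (L₀ : ℕ), ∀ (L : ℕ) [NeZero L], L₀ ≤ L →
    ∃ (a D : ℕ) (X : (Site L → Fin a) → (Site L → Fin d) → ℂ),
      (D : ℝ) ≤ (L : ℝ) ^ C ∧ IsPurified D X ∧ 0 < ∑ t, normSq (X t) ∧
        ∑ t, (ip (X t) (ham h L *ᵥ X t)).re ≤
          (energy (ham h L) (Ψ L) + Δ * (1 - (L : ℝ) ^ (-C))) * ∑ t, normSq (X t)

section aux

variable {d R : ℕ} {h : BoxOp d R} {Δ : ℝ} {Ψ : ∀ L : ℕ, (Site L → Fin d) → ℂ}

theorem rpow_eq {L : ℕ} (hL : 1 ≤ L) (C : ℝ) : (L : ℝ) ^ C = Real.exp (C * Real.log L ^ 1) := by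
  have hL0 : (0 : ℝ) < L := by exact_mod_cast hL
  rw [Real.rpow_def_of_pos hL0, pow_one, mul_comm]

theorem rpow_eq' {L : ℕ} (hL : 1 ≤ L) (C : ℝ) :
    (L : ℝ) ^ (-C) = Real.exp (-(C * Real.log L ^ 1)) := by
  rw [rpow_eq hL, neg_mul]

theorem one_le_of {L : ℕ} [NeZero L] : 1 ≤ L := Nat.one_le_iff_ne_zero.2 (NeZero.ne L)

theorem approx_of_poly {c : ℝ} (hA : PolyPEPS Ψ c) :
    ∃ C : ℝ, Approx Ψ 1 C fun L => (L : ℝ) ^ (-c) := by
  obtain ⟨a, k, hak⟩ := hA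
  refine ⟨a + k, 3, ?_⟩
  intro L _ hL
  obtain ⟨D, ψ, h1, h2, h3⟩ := hak L
  refine ⟨D, ψ, ?_, h2, h3⟩
  have hl1 := log_ge_one hL
  have hL0 : (0 : ℝ) < L := by exact_mod_cast one_le_of (L := L)
  have h4 : (D : ℝ) ≤ a * (L : ℝ) ^ k := by exact_mod_cast h1
  have h5 : (a : ℝ) ≤ Real.exp (a * Real.log L) := by
    have h6 := Real.add_one_le_exp ((a : ℝ) * Real.log L)
    have h7 : (a : ℝ) * 1 ≤ a * Real.log L := mul_le_mul_of_nonneg_left hl1 (Nat.cast_nonneg _)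
    linarith
  have h6 : (L : ℝ) ^ k = Real.exp (k * Real.log L) := by
    rw [Real.exp_nat_mul, Real.exp_log hL0]
  rw [h6] at h4
  refine h4.trans ((mul_le_mul_of_nonneg_right h5 (Real.exp_pos _).le).trans (le_of_eq ?_))
  rw [← Real.exp_add, pow_one]
  congr 1
  ring

theorem poly_of_approx {c C : ℝ} (hA : Approx Ψ 1 C fun L => (L : ℝ) ^ (-c)) : PolyPEPS Ψ c :=
  Pool.Agent.TH235.PQ.every d Ψ C c hA

theorem poly_iff (c : ℝ) :
    PolyPEPS Ψ c ↔ ∃ C : ℝ, Approx Ψ 1 C fun L => (L : ℝ) ^ (-c) :=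
  ⟨approx_of_poly, fun ⟨_, h⟩ => poly_of_approx h⟩

theorem overlap_iff : PolyOverlap Ψ ↔ ∃ C : ℝ, PureOverlap Ψ 1 C := by
  unfold PolyOverlap PureOverlap
  refine exists_congr fun C => exists_congr fun L₀ => ?_
  refine forall_congr' fun L => forall_congr' fun hn => forall_congr' fun _ => ?_
  simp only [rpow_eq' (one_le_of (L := L)), rpow_eq (one_le_of (L := L)) C]

theorem mixed_iff : PolyMixedOverlap Ψ ↔ ∃ C : ℝ, MixedOverlap Ψ 1 C := by
  unfold PolyMixedOverlap MixedOverlap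
  refine exists_congr fun C => exists_congr fun L₀ => ?_
  refine forall_congr' fun L => forall_congr' fun hn => forall_congr' fun _ => ?_
  simp only [rpow_eq' (one_le_of (L := L)), rpow_eq (one_le_of (L := L)) C]

theorem low_iff : PolyLowEnergy h Δ Ψ ↔ ∃ C : ℝ, LowEnergy h Δ Ψ 1 C := by
  unfold PolyLowEnergy LowEnergy energy
  refine exists_congr fun C => exists_congr fun L₀ => ?_
  refine forall_congr' fun L => forall_congr' fun hn => forall_congr' fun _ => ?_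
  simp only [rpow_eq' (one_le_of (L := L)), rpow_eq (one_le_of (L := L)) C]

theorem partition_imp (hS : PolyPartition h Ψ) : ∃ C : ℝ, SmallPartition h Ψ 1 C := by
  obtain ⟨C, L₀, hL₀⟩ := hS
  refine ⟨C, L₀, ?_⟩
  intro L _ hL hH
  obtain ⟨β, h1, h2, h3⟩ := hL₀ L hL hH
  refine ⟨β, h1, by rw [pow_one]; exact h2, ?_⟩
  rw [← rpow_eq (one_le_of (L := L)) C]
  exact h3

theorem states_imp (hS : PolyStates h Ψ) : ∃ C : ℝ, FewStates h Ψ 1 C := by
  obtain ⟨C, L₀, hL₀⟩ := hS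
  refine ⟨C, L₀, ?_⟩
  intro L _ hL hH m
  have h1 := hL₀ L hL hH m
  have hL0 : (0 : ℝ) < L := by exact_mod_cast one_le_of (L := L)
  have h2 : (numStates hH (energy (ham h L) (Ψ L) + m) : ℝ) ≤ (L : ℝ) ^ (C * (m + 1)) := by
    exact_mod_cast h1
  refine h2.trans (le_of_eq ?_)
  have h3 : Real.exp ((C : ℝ) * (m + 1) * Real.log L ^ 1) =
      Real.exp (((C * (m + 1) : ℕ) : ℝ) * Real.log L) := by
    congr 1
    push_cast
    ring
  rw [h3, Real.exp_nat_mul, Real.exp_log hL0]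

theorem of_partition (hF : GappedFamily h Δ Ψ) {C : ℝ} (hS : SmallPartition h Ψ 1 C) (c : ℝ)
    (hc : 0 < c) : PolyPEPS Ψ c := by
  obtain ⟨C', hC'⟩ := Pool.Agent.TH235.PQ.small_to_approxK Pool.Agent.TH235.PQ.therm0 hF hS 1 c
    le_rfl le_rfl hc.le
  exact poly_of_approx (exp_to_rpow' le_rfl hc hC')

end aux

/-- (A) Few low-lying states, (B) a polynomial partition function at a logarithmic inverse
temperature give the conclusion of the open problem. (C) Equivalent forms of the conclusion. -/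
theorem result :
    (∀ (d R : ℕ) (h : BoxOp d R) (Δ : ℝ) (Ψ : ∀ L : ℕ, (Site L → Fin d) → ℂ),
      GappedFamily h Δ Ψ → PolyStates h Ψ → ∀ c : ℝ, 0 < c → PolyPEPS Ψ c) ∧
    (∀ (d R : ℕ) (h : BoxOp d R) (Δ : ℝ) (Ψ : ∀ L : ℕ, (Site L → Fin d) → ℂ),
      GappedFamily h Δ Ψ → PolyPartition h Ψ → ∀ c : ℝ, 0 < c → PolyPEPS Ψ c) ∧
    (∀ (d R : ℕ) (h : BoxOp d R) (Δ : ℝ) (Ψ : ∀ L : ℕ, (Site L → Fin d) → ℂ),
      GappedFamily h Δ Ψ →
      List.TFAE [
        ∀ c : ℝ, 0 < c → PolyPEPS Ψ c,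
        ∃ c : ℝ, 0 < c ∧ PolyPEPS Ψ c,
        PolyOverlap Ψ,
        PolyMixedOverlap Ψ,
        PolyLowEnergy h Δ Ψ,
        ∃ (R' : ℕ) (h' : BoxOp d R') (Δ' : ℝ) (Ψ' : ∀ L : ℕ, (Site L → Fin d) → ℂ),
          GappedFamily h' Δ' Ψ' ∧ (∀ c : ℝ, 0 < c → PolyPEPS Ψ' c) ∧
          ∃ (C : ℝ) (L₀ : ℕ), ∀ (L : ℕ) [NeZero L], L₀ ≤ L →
            (L : ℝ) ^ (-C) ≤ ‖ip (Ψ L) (Ψ' L)‖]) := by
  refine ⟨?_, ?_, ?_⟩
  · intro d R h Δ Ψ hF hS c hc
    obtain ⟨C, hC⟩ := states_imp hS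
    obtain ⟨C', hC'⟩ := few_to_small hF hC
    exact of_partition hF hC' c hc
  · intro d R h Δ Ψ hF hS c hc
    obtain ⟨C, hC⟩ := partition_imp hS
    exact of_partition hF hC c hc
  · intro d R h Δ Ψ hF
    have hE := Pool.Agent.TH235.PQ.equiv Pool.Agent.TH235.PQ.amp0 d R h Δ Ψ hF
    have h6 : ∀ (L : ℕ) [NeZero L] (C x : ℝ),
        (L : ℝ) ^ (-C) ≤ x ↔ Real.exp (-(C * Real.log L)) ≤ x := by
      intro L _ C x
      rw [rpow_eq' (one_le_of (L := L)), pow_one]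
    simp only [poly_iff, overlap_iff, mixed_iff, low_iff, h6]
    exact hE

end Pool.Agent.Results.MP_e4acd5_mp.PolynomialBond
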